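import Pool.Agent.Helper64.MC.KVB
import Pool.Agent.Helper59.RR.PW
import Pool.Agent.Helper28.RR.RA
import Pool.Agent.Helper24.PP.MA
import Pool.Agent.Helper88.RR.KI

/-!
# MC-KV: the primes at the points of `P` are killed
-/

set_option autoImplicit false

open Finset Filter Topology

open scoped Classical

namespace Pool.Agent.Helper64.MC

open Pool.Agent.Helper88.PP (pr Rg om Sf SS uu vv ee LA VV QQ cost)
open Pool.Agent.Helper88.RR (gg ab TB WB nz wb DB Db VM GB tail point)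
open Pool.Agent.Helper88.GM (NI XI gB In)
open Pool.Agent.Helper88.CG (qE mE)
open Pool.Agent.Helper33.RR (om_nonneg gg_nonneg)
open Pool.Agent.Helper23.MC

/-- `2^(-q/4)` against the number of points -/
theorem small4 (η : ℝ) (hη : 0 < η) : ∃ E0 : ℕ, ∀ E : ℕ, E0 ≤ E →
    (E : ℝ) ^ 2 * (1 / 2 ^ (qE E / 4)) ≤ η := by
  have e2 : Tendsto (fun k : ℕ => ((2 : ℝ) ^ (16 * k + 16)) ^ 2 * (1 / 2 ^ (2 ^ k / 4))) atTop
      (𝓝 0) := by
    have g1 : Tendsto (fun k : ℕ => (2 : ℝ) ^ 32 * ((((k : ℝ)) ^ 1 / (2 : ℝ) ^ k))) atTop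
        (𝓝 ((2 : ℝ) ^ 32 * 0)) :=
      (tendsto_pow_const_div_const_pow_of_one_lt 1 (by norm_num)).const_mul _
    rw [mul_zero] at g1
    have g2 : ∀ᶠ k : ℕ in atTop, 33 * k + 1 ≤ 2 ^ k / 4 := by
      have h3 : Tendsto (fun k : ℕ => ((k : ℝ)) ^ 1 / (2 : ℝ) ^ k) atTop (𝓝 0) :=
        tendsto_pow_const_div_const_pow_of_one_lt 1 (by norm_num)
      have h4 := h3.eventually (gt_mem_nhds (show (0 : ℝ) < 1 / 400 by norm_num))
      filter_upwards [h4, eventually_ge_atTop 10] with k hk hk10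
      rw [pow_one, div_lt_div_iff₀ (by positivity) (by norm_num)] at hk
      have h5 : k * 400 < 1 * 2 ^ k := by exact_mod_cast hk
      omega
    refine squeeze_zero' (Eventually.of_forall fun k => by positivity) ?_ g1
    filter_upwards [g2, eventually_ge_atTop 1] with k hk hk1
    have h6 : (2 : ℝ) ^ (33 * k) ≤ 2 ^ (2 ^ k / 4) :=
      pow_le_pow_right₀ (by norm_num) (by omega)
    have h7 : ((2 : ℝ) ^ (16 * k + 16)) ^ 2 = 2 ^ 32 * 2 ^ (32 * k) := by
      rw [← pow_mul, ← pow_add]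
      congr 1
      ring
    have h8 : (2 : ℝ) ^ (33 * k) = 2 ^ (32 * k) * 2 ^ k := by
      rw [← pow_add]
      congr 1
      ring
    have hk1' : (1 : ℝ) ≤ k := by exact_mod_cast hk1
    rw [h7, pow_one]
    have h9 : (1 : ℝ) / 2 ^ (2 ^ k / 4) ≤ 1 / 2 ^ (33 * k) :=
      one_div_le_one_div_of_le (by positivity) h6
    have h10 : (2 : ℝ) ^ 32 * 2 ^ (32 * k) * (1 / 2 ^ (33 * k)) = 2 ^ 32 * (1 / 2 ^ k) := by
      rw [h8]
      field_simp
    have h11 : (2 : ℝ) ^ 32 * (1 / 2 ^ k) ≤ 2 ^ 32 * ((k : ℝ) / 2 ^ k) := by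
      apply mul_le_mul_of_nonneg_left _ (by positivity)
      exact div_le_div_of_nonneg_right hk1' (by positivity)
    exact (mul_le_mul_of_nonneg_left h9 (by positivity)).trans (h10.le.trans h11)
  obtain ⟨k0, hk0⟩ := eventually_atTop.1 (e2.eventually (gt_mem_nhds hη))
  refine ⟨2 ^ (16 * k0), fun E hE2 => ?_⟩
  have hE0 : E ≠ 0 := by
    have : 0 < 2 ^ (16 * k0) := by positivity
    omega
  have hL : 16 * k0 ≤ Nat.log 2 E := Nat.le_log_of_pow_le (by norm_num) hE2
  have hk : k0 ≤ Nat.log 2 E / 16 := by omega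
  have hpow2 : E < 2 ^ (Nat.log 2 E + 1) := Nat.lt_pow_succ_log_self (by norm_num) E
  have h9 : (E : ℝ) ≤ 2 ^ (16 * (Nat.log 2 E / 16) + 16) := by
    have h10 : E ≤ 2 ^ (16 * (Nat.log 2 E / 16) + 16) :=
      hpow2.le.trans (Nat.pow_le_pow_right (by norm_num) (by omega))
    exact_mod_cast h10
  have h11 := (hk0 _ hk).le
  refine le_trans ?_ h11
  have h12 : qE E = 2 ^ (Nat.log 2 E / 16) := rfl
  rw [h12]
  gcongr

/-- the number of points and the constants are absorbed -/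
theorem absorb (A : ℕ) (B c0 : ℝ) (hc0 : 0 < c0) : ∃ E0 : ℕ, ∀ (E : ℕ) (L y : ℝ),
    E0 ≤ E → 0 < L → 0 ≤ y → y ≤ L ^ A → Real.log L ^ 3 ≤ E →
    y * (B * Real.exp (-(c0 * E))) ≤ Real.exp (-(c0 / 4 * E)) := by
  have hN : Tendsto (fun E : ℕ => (E : ℝ)) atTop atTop := tendsto_natCast_atTop_atTop
  set a : ℝ := c0 / (4 * (A + 1)) with ha
  have ha0 : 0 < a := by positivity
  have e1 : ∀ᶠ u : ℝ in atTop, 1 < u ∧ 1 / a ^ 3 < u ∧ |B| ≤ Real.exp (c0 / 4 * u) := by
    refine (eventually_gt_atTop 1).and ((eventually_gt_atTop _).and ?_)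
    have h1 : Tendsto (fun u : ℝ => Real.exp (c0 / 4 * u)) atTop atTop :=
      Real.tendsto_exp_atTop.comp (Tendsto.const_mul_atTop (by positivity) tendsto_id)
    exact h1.eventually_ge_atTop |B|
  obtain ⟨E0, hE0⟩ := eventually_atTop.1 (hN.eventually e1)
  refine ⟨E0, fun E L y hE hL h0 hy hL3 => ?_⟩
  obtain ⟨u1, u2, u3⟩ := hE0 E hE
  have hEp : (0 : ℝ) < E := by linarith
  -- `log L ≤ a E`
  have hlog : Real.log L ≤ a * E := by
    by_contra hcon
    push Not at hcon
    have h1 : (a * E) ^ 3 < Real.log L ^ 3 := by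
      exact pow_lt_pow_left₀ hcon (by positivity) (by norm_num)
    have h2 : (a * E) ^ 3 < E := lt_of_lt_of_le h1 hL3
    rw [div_lt_iff₀ (by positivity)] at u2
    have h3 : (E : ℝ) < (a * E) ^ 3 := by
      calc (E : ℝ) = E * 1 := by ring
        _ < E * (E * a ^ 3) := mul_lt_mul_of_pos_left u2 hEp
        _ ≤ E * (E * a ^ 3) * E := le_mul_of_one_le_right (by positivity) u1.le
        _ = (a * E) ^ 3 := by ring
    linarith only [hL3, h1, h3]
  have hLA : L ^ A ≤ Real.exp (c0 / 4 * E) := by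
    have h1 : L ^ A = Real.exp (A * Real.log L) := by
      rw [← Real.exp_log hL, ← Real.exp_nat_mul, Real.exp_log hL]
    rw [h1]
    refine Real.exp_le_exp.2 ?_
    calc (A : ℝ) * Real.log L ≤ A * (a * E) := mul_le_mul_of_nonneg_left hlog (Nat.cast_nonneg A)
      _ ≤ (A + 1) * (a * E) := by
          apply mul_le_mul_of_nonneg_right _ (by positivity)
          linarith
      _ = c0 / 4 * E := by
          rw [ha]
          field_simp
  have hy2 : y ≤ Real.exp (c0 / 4 * E) := hy.trans hLA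
  calc y * (B * Real.exp (-(c0 * E))) = y * B * Real.exp (-(c0 * E)) := by ring
    _ ≤ (Real.exp (c0 / 4 * E) * Real.exp (c0 / 4 * E)) * Real.exp (-(c0 * E)) := by
        apply mul_le_mul_of_nonneg_right _ (Real.exp_pos _).le
        calc y * B ≤ y * |B| := mul_le_mul_of_nonneg_left (le_abs_self B) h0
          _ ≤ Real.exp (c0 / 4 * E) * Real.exp (c0 / 4 * E) :=
              mul_le_mul hy2 u3 (abs_nonneg _) (Real.exp_pos _).le
    _ = Real.exp (-(c0 / 2 * E)) := by
        rw [← Real.exp_add, ← Real.exp_add]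
        congr 1
        ring
    _ ≤ Real.exp (-(c0 / 4 * E)) := by
        refine Real.exp_le_exp.2 ?_
        nlinarith only [hc0, hEp, mul_pos hc0 hEp]

theorem om_le_one (y z : ℕ) : om y z ≤ 1 := by
  refine Finset.prod_le_one (fun p hp => ?_) (fun p hp => ?_)
  · have h1 : p.Prime := (Finset.mem_filter.mp hp).2
    have h2 : (2 : ℝ) ≤ p := by exact_mod_cast h1.two_le
    have h3 : 1 / (p : ℝ) ≤ 1 := by
      rw [div_le_one (by linarith)]
      linarith
    linarith
  · have : 0 ≤ 1 / (p : ℝ) := by positivity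
    linarith

theorem kv (hTGA : StmtTGA) (hGV : StmtGV) : StmtKV := by
  obtain ⟨cV, hcV, EV, hV0⟩ := hGV 0
  refine ⟨min (1 / 2) (cV / 200), lt_min (by norm_num) (by positivity), min_le_left _ _, ?_⟩
  intro A K0 C η hC hη
  obtain ⟨c0, hc0, ET, hT⟩ := hTGA A
  obtain ⟨cK, hcK, EK, hK⟩ := hGV K0
  obtain ⟨cm, C', hcm, hC', hma⟩ := Pool.Agent.Helper24.PP.ma
  obtain ⟨E2, hE2⟩ := small4 η hη
  obtain ⟨E3, hE3⟩ := absorb A ((C * C' ^ K0) ^ 2) c0 hc0
  refine ⟨c0 / 4, by positivity, max (max (max EV ET) (max EK E2)) (max E3 300), ?_⟩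
  intro E z x y hE hSr Q b hQ hb P H hP hH hd hHc hPo T κ hAd
  have hEEV : EV ≤ E :=
    le_trans (le_trans (le_trans (le_max_left _ _) (le_max_left _ _)) (le_max_left _ _)) hE
  have hEET : ET ≤ E :=
    le_trans (le_trans (le_trans (le_max_right _ _) (le_max_left _ _)) (le_max_left _ _)) hE
  have hEEK : EK ≤ E :=
    le_trans (le_trans (le_trans (le_max_left _ _) (le_max_right _ _)) (le_max_left _ _)) hE
  have hEE2 : E2 ≤ E :=
    le_trans (le_trans (le_trans (le_max_right _ _) (le_max_right _ _)) (le_max_left _ _)) hE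
  have hEE3 : E3 ≤ E := le_trans (le_trans (le_max_left _ _) (le_max_right _ _)) hE
  have hE300 : 300 ≤ E := le_trans (le_trans (le_max_right _ _) (le_max_right _ _)) hE
  set c1 : ℝ := min (1 / 2) (cV / 200) with hc1
  have hc1a : c1 ≤ 1 / 2 := min_le_left _ _
  have hc1b : c1 ≤ cV / 200 := min_le_right _ _
  have hc1p : 0 < c1 := lt_min (by norm_num) (by positivity)
  clear_value c1
  have s1 := hE2 E hEE2
  obtain ⟨⟨w1, w2, w3, w4, w5, w6, w7⟩, -⟩ := hV0 E hEEV
  obtain ⟨⟨v1, v2, v3, v4, v5, v6, v7⟩, hgg⟩ := hK E hEEK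
  have hTE := hT E z x y hEET hSr
  obtain ⟨hz1, hx1, hx2, hy1, hy2, hy3⟩ := hSr
  unfold W1 D1
  set m := mE E with hm
  set q := qE E with hq
  have hE0 : E ≠ 0 := by omega
  have hEr : (300 : ℝ) ≤ E := by exact_mod_cast hE300
  have hEpos : (0 : ℝ) < E := by linarith only [hc1a, hc1p, hEr]
  have hz2 : 2 ≤ z := by
    have h1 : (2 : ℝ) ≤ z := by
      have := Real.add_one_le_exp (E : ℝ)
      linarith only [hc1a, hc1p, hz1, hEr, this]
    exact_mod_cast h1
  obtain ⟨hV1, hVlog⟩ := w7 z hz2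
  set V := VV z m (q * m) with hV
  have hVne : V ≠ 0 := by linarith only [hc1a, hc1p, hV1]
  have hVpos : 0 < V := by linarith only [hc1a, hc1p, hV1]
  have hlogE0 : 0 ≤ Real.log E := Real.log_nonneg (by linarith only [hc1a, hc1p, hEr])
  have hlogE1 : Real.log E ≤ E := Real.log_le_self hEpos.le
  have hom := om_nonneg y z
  have hom1 := om_le_one y z
  -- the parameter `K`
  have hK3 : (E / 32 / m + 1 + K0) ^ 3 ≤ E := by
    refine le_trans ?_ v5
    have ha : ∀ a : ℕ, a + 1 + K0 ≤ 2 * (a + K0 + 2) := fun a => by omega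
    calc (E / 32 / m + 1 + K0) ^ 3 ≤ (2 * (E / 32 / m + K0 + 2)) ^ 3 :=
          Nat.pow_le_pow_left (ha _) 3
      _ ≤ (2 * (E / 32 / m + K0 + 2)) ^ 6 :=
          Nat.pow_le_pow_right (Nat.succ_le_of_lt (by positivity)) (by norm_num)
  have hK0E : K0 ≤ E := by
    refine le_trans ?_ hK3
    have ha : ∀ a : ℕ, K0 ≤ a + 1 + K0 := fun a => by omega
    refine (ha (E / 32 / m)).trans ?_
    exact Nat.le_self_pow (by norm_num) _
  -- the number of points
  have hPo2 : (P.card : ℝ) * om y z ≤ (E : ℝ) ^ 2 / 2 := by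
    refine hPo.trans ?_
    calc c1 * (E * Real.log E) ≤ 1 / 2 * (E * E) := by
          apply mul_le_mul hc1a _ (by positivity) (by norm_num)
          exact mul_le_mul_of_nonneg_left hlogE1 hEpos.le
      _ = (E : ℝ) ^ 2 / 2 := by ring
  have hPo3 : (P.card : ℝ) * om y z ≤ (E : ℝ) ^ 2 := by
    have : 0 ≤ (E : ℝ) ^ 2 := by positivity
    linarith only [hPo2, this]
  have hHo : (H.card : ℝ) * om y z ≤ (E : ℝ) ^ 2 / 2 := by
    have h1 : (H.card : ℝ) ≤ E := by exact_mod_cast hHc.trans hK0E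
    calc (H.card : ℝ) * om y z ≤ E * 1 := mul_le_mul h1 hom1 hom hEpos.le
      _ ≤ (E : ℝ) ^ 2 / 2 := by nlinarith only [hc1a, hc1p, hEr]
  have hPHo : ((P ∪ H).card : ℝ) * om y z ≤ (E : ℝ) ^ 2 := by
    rw [Finset.card_union_of_disjoint hd]
    push_cast
    rw [add_mul]
    linarith only [hPo2, hHo]
  have hPy : P.card ≤ y := by
    have := Finset.card_le_card hP
    rwa [Nat.card_Icc, Nat.add_sub_cancel] at this
  have hIn : In x (x / 32) x Q b := ⟨hQ, hb, by omega⟩
  have hM2 : 2 ≤ E / 32 := w4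
  have hMr : (E : ℝ) / 40 ≤ ((E / 32 : ℕ) : ℝ) := by
    have : E ≤ 40 * (E / 32) := by
      clear w3 w5 v3 v5 hK3
      omega
    have h3 : (E : ℝ) ≤ 40 * ((E / 32 : ℕ) : ℝ) := by exact_mod_cast this
    linarith only [h3]
  have hVM : VM (E / 32) z ≤ C' * ((E / 32 : ℕ) : ℝ) := (hma z (E / 32) hz2 (by omega)).2.1
  have hone := one_point K0 E z y (x / 32) x Q b m q (E / 32 / m + 1 + K0) C C' c0 hC hC'
    (hTE (x / 32) x Q b hIn) hz2 w1 (by omega) w2 hV1 le_rfl hK3 (hgg y z) hVM P H hP hH hd hHc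
    hPHo T κ hAd
  -- the tail
  have htail := tail Pool.Agent.Helper28.RR.ra m q (E / 32) z y (q / 4) P hPy hVne w3 (by
    refine le_trans ?_ hMr
    rw [← hV]
    have h1 : (P.card : ℝ) * om y z * (1 / V) ≤ c1 * (E * Real.log E) * (1 / V) :=
      mul_le_mul_of_nonneg_right hPo (by positivity)
    have h2 : c1 * (E * Real.log E) * (1 / V) ≤ E / 200 := by
      rw [mul_one_div, div_le_iff₀ hVpos]
      have h3 : c1 * Real.log E ≤ V / 200 := by
        calc c1 * Real.log E ≤ cV / 200 * Real.log E :=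
              mul_le_mul_of_nonneg_right hc1b hlogE0
          _ ≤ V / 200 := by linarith only [hVlog]
      calc c1 * (E * Real.log E) = E * (c1 * Real.log E) := by ring
        _ ≤ E * (V / 200) := mul_le_mul_of_nonneg_left h3 hEpos.le
        _ = E / 200 * V := by ring
    linarith only [hc1a, hc1p, hEr, h1, h2])
  set D := DB m q (E / 32) z y P with hD
  set Sig := ∑ r ∈ (TB m q (E / 32) z P).filter (fun r => E / 32 < cost z r + q * m),
    wb m q y z r with hSig
  set X := XI (x / 32) x Q with hX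
  have hX0 : 0 ≤ X := XI_nonneg _ _ _
  have hSig0 : 0 ≤ Sig := by
    rw [hSig]
    refine Finset.sum_nonneg fun r _ => ?_
    unfold wb
    refine mul_nonneg (gg_nonneg ((nz_le_card r).trans hPy)) (Finset.prod_nonneg fun i _ => ?_)
    split_ifs
    · exact zero_le_one
    · exact mul_nonneg (sq_nonneg _) (Nat.cast_nonneg _)
  have hD0 : 0 ≤ D := le_trans (by positivity) htail
  have hSigD : Sig ≤ 1 / 2 ^ (q / 4) * D := by
    rw [one_div, ← div_eq_inv_mul, le_div_iff₀ (by positivity), mul_comm]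
    exact htail
  set W := om y z ^ H.card * NH H T κ with hW
  have hW0 : 0 ≤ W := mul_nonneg (pow_nonneg hom _) (NH_nonneg H T κ)
  -- pointwise
  have hA : ∑ n ∈ NI (x / 32) x Q b,
      WB m q (E / 32) z y P n ^ 2 * VH y z H T κ n ^ 2 *
        ((P.filter (fun h => (n + h).Prime)).card : ℝ) ≤
      ∑ n ∈ NI (x / 32) x Q b, ∑ h : P, (GB m q (E / 32) z y P h n * VH y z H T κ n) ^ 2 := by
    refine Finset.sum_le_sum fun n hn => ?_
    have hn1 : x / 32 < n := (Finset.mem_Ioc.mp (Finset.mem_filter.mp hn).1).1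
    have hzn : z ^ (E / 32) ≤ n := by
      have h6 : z ^ (E / 32) * 32 ≤ x := by
        refine le_trans ?_ hx1
        calc z ^ (E / 32) * 32 = z ^ (E / 32) * 2 ^ 5 := by norm_num
          _ ≤ z ^ (E / 32) * z ^ 5 := Nat.mul_le_mul_left _ (Nat.pow_le_pow_left hz2 5)
          _ = z ^ (E / 32 + 5) := (pow_add _ _ _).symm
          _ ≤ z ^ E := Nat.pow_le_pow_right (by omega) (by omega)
      omega
    have hpt := point Pool.Agent.Helper59.RR.pw m q (E / 32) z y n P hM2 w1 hz2 hVne w2 hzn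
    have h2 := mul_le_mul_of_nonneg_right hpt (sq_nonneg (VH y z H T κ n))
    rw [Finset.sum_mul] at h2
    refine le_trans (le_of_eq ?_) (h2.trans (le_of_eq ?_))
    · ring
    · refine Finset.sum_congr rfl fun h _ => ?_
      ring
  rw [Finset.sum_comm] at hA
  have hB := hA.trans (Finset.sum_le_sum fun h _ => hone h)
  rw [Finset.sum_const, nsmul_eq_mul, Finset.card_univ, Fintype.card_coe] at hB
  refine hB.trans ?_
  have hLp : 0 < Real.log x := by
    have hx0 : (0 : ℝ) < x := by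
      have : 0 < x := lt_of_lt_of_le (pow_pos (by omega) E) hx1
      exact_mod_cast this
    have h1 : (z : ℝ) ^ E ≤ x := by exact_mod_cast hx1
    have hzp : (0 : ℝ) < z := lt_of_lt_of_le (Real.exp_pos _) hz1
    have h2 : Real.log ((z : ℝ) ^ E) ≤ Real.log x := Real.log_le_log (by positivity) h1
    rw [Real.log_pow] at h2
    have h3 : (E : ℝ) ≤ Real.log z := by
      rw [Real.le_log_iff_exp_le hzp]
      exact hz1
    nlinarith only [hc1a, hc1p, hEr, h2, h3]
  have hexp : (P.card : ℝ) * ((C * C' ^ K0) ^ 2 * Real.exp (-(c0 * E))) ≤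
      Real.exp (-(c0 / 4 * E)) := by
    refine hE3 E (Real.log x) P.card hEE3 hLp (Nat.cast_nonneg _) ?_ hy3
    refine le_trans ?_ hy2
    exact_mod_cast hPy
  have hPom : 0 ≤ (P.card : ℝ) * om y z := mul_nonneg (Nat.cast_nonneg _) hom
  have hmain : (P.card : ℝ) * om y z * Sig ≤ η * D := by
    calc (P.card : ℝ) * om y z * Sig ≤ (E : ℝ) ^ 2 * (1 / 2 ^ (q / 4) * D) :=
          mul_le_mul hPo3 hSigD hSig0 (by positivity)
      _ = (E : ℝ) ^ 2 * (1 / 2 ^ (q / 4)) * D := by ring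
      _ ≤ η * D := mul_le_mul_of_nonneg_right s1 hD0
  calc (P.card : ℝ) * (X * (W * (om y z * Sig)) +
        (C * C' ^ K0) ^ 2 * Real.exp (-(c0 * E)) * X)
      = X * (W * ((P.card : ℝ) * om y z * Sig) +
        (P.card : ℝ) * ((C * C' ^ K0) ^ 2 * Real.exp (-(c0 * E)))) := by ring
    _ ≤ X * (W * (η * D) + Real.exp (-(c0 / 4 * E))) := by
        refine mul_le_mul_of_nonneg_left ?_ hX0
        exact add_le_add (mul_le_mul_of_nonneg_left hmain hW0) hexp
    _ = X * (η * (D * W) + Real.exp (-(c0 / 4 * E))) := by ring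

end Pool.Agent.Helper64.MC
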