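import Pool.Agent.Helper87.MC.Goals

/-!
MP_d8224a_co, packet CHEB.
-/

namespace Pool.Agent.Helper64.MC

open Finset Pointwise
open Pool.Agent.Helper87.MC

open Classical in
theorem cheb (h1 : GPair) (h2 : GPair2) : GCheb := by
  intro G _ _ P hk hn
  obtain ⟨k, hkd⟩ : ∃ k, P.card = k := ⟨_, rfl⟩
  obtain ⟨n, hnd⟩ : ∃ n, Fintype.card G = n := ⟨_, rfl⟩
  rw [hkd] at hk hn ⊢
  rw [hnd] at hn ⊢
  obtain ⟨m, hmd⟩ : ∃ m, 4 * k = m := ⟨_, rfl⟩
  rw [hmd]
  have hk1 : (1 : ℝ) ≤ k := by exact_mod_cast hk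
  have hnR : 1024 * (k : ℝ) ^ 2 ≤ n := by exact_mod_cast hn
  have hnpos : (0 : ℝ) < n := by nlinarith
  have hmR : (m : ℝ) = 4 * k := by rw [← hmd]; push_cast; ring
  set N : ℝ := (n : ℝ) ^ m with hN
  have hNpos : 0 < N := by positivity
  let OP : Finset (Fin m × Fin m) := univ.filter (fun p => p.1 ≠ p.2)
  let I : (Fin m × Fin m) → (Fin m → G) → ℝ := fun p ξ => if ξ p.1 - ξ p.2 ∈ P then 1 else 0
  let X : (Fin m → G) → ℝ := fun ξ => ∑ p ∈ OP, I p ξ
  have hI0 : ∀ p ξ, 0 ≤ I p ξ := by intro p ξ; simp only [I]; split_ifs <;> norm_num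
  have hI1 : ∀ p ξ, I p ξ ≤ 1 := by intro p ξ; simp only [I]; split_ifs <;> norm_num
  have hA : ∀ p ∈ OP, ∑ ξ : Fin m → G, I p ξ = k * N / n := by
    intro p hp
    have hne : p.1 ≠ p.2 := (mem_filter.mp hp).2
    have h := h1 G m p.1 p.2 hne P
    rw [hkd, hnd] at h
    have h' : ((((univ : Finset (Fin m → G)).filter (fun ξ => ξ p.1 - ξ p.2 ∈ P)).card : ℝ))
        * n = k * N := by
      rw [hN]
      exact_mod_cast h
    simp only [I]
    rw [Finset.sum_boole, eq_div_iff hnpos.ne', h']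
  have hB : ∀ p ∈ OP, ∀ q ∈ OP, q ≠ p → q ≠ p.swap →
      ∑ ξ : Fin m → G, I p ξ * I q ξ = k ^ 2 * N / n ^ 2 := by
    intro p hp q hq hqp hqs
    have hne : p.1 ≠ p.2 := (mem_filter.mp hp).2
    have hne' : q.1 ≠ q.2 := (mem_filter.mp hq).2
    have h := h2 G m p.1 p.2 q.1 q.2 hne hne'
      (fun h => hqp (Prod.ext h.1.symm h.2.symm)) (fun h => hqs (Prod.ext h.2.symm h.1.symm)) P
    rw [hkd, hnd] at h
    have h' : ((((univ : Finset (Fin m → G)).filter
        (fun ξ => ξ p.1 - ξ p.2 ∈ P ∧ ξ q.1 - ξ q.2 ∈ P)).card : ℝ)) * n ^ 2 = k ^ 2 * N := by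
      rw [hN]
      exact_mod_cast h
    have e : ∀ ξ : Fin m → G, I p ξ * I q ξ =
        if ξ p.1 - ξ p.2 ∈ P ∧ ξ q.1 - ξ q.2 ∈ P then 1 else 0 := by
      intro ξ
      simp only [I]
      by_cases ha : ξ p.1 - ξ p.2 ∈ P <;> by_cases hb : ξ q.1 - ξ q.2 ∈ P <;> simp [ha, hb]
    simp only [e]
    rw [Finset.sum_boole, eq_div_iff (by positivity), h']
  have hB' : ∀ p ∈ OP, ∀ q, ∑ ξ : Fin m → G, I p ξ * I q ξ ≤ k * N / n := by
    intro p hp q
    rw [← hA p hp]
    refine Finset.sum_le_sum fun ξ _ => ?_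
    exact mul_le_of_le_one_right (hI0 p ξ) (hI1 q ξ)
  set M : ℝ := (OP.card : ℝ) with hM
  have hM1 : M ≤ 16 * k ^ 2 := by
    have : OP.card ≤ m * m := by
      calc OP.card ≤ (univ : Finset (Fin m × Fin m)).card := Finset.card_filter_le _ _
        _ = m * m := by simp
    calc M ≤ ((m * m : ℕ) : ℝ) := by rw [hM]; exact_mod_cast this
      _ = 16 * k ^ 2 := by push_cast; rw [hmR]; ring
  have hM0 : 0 ≤ M := by positivity
  have hS1 : ∑ ξ, X ξ = M * (k * N / n) := by
    simp only [X]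
    rw [Finset.sum_comm, Finset.sum_congr rfl hA, Finset.sum_const, nsmul_eq_mul]
  have hS2 : ∑ ξ, X ξ ^ 2 ≤ M * (M * (k ^ 2 * N / n ^ 2) + 2 * (k * N / n)) := by
    have e1 : ∑ ξ, X ξ ^ 2 = ∑ p ∈ OP, ∑ q ∈ OP, ∑ ξ, I p ξ * I q ξ := by
      have : ∀ ξ, X ξ ^ 2 = ∑ p ∈ OP, ∑ q ∈ OP, I p ξ * I q ξ := by
        intro ξ
        simp only [X]
        rw [sq, Finset.sum_mul_sum]
      simp only [this]
      rw [Finset.sum_comm]
      refine Finset.sum_congr rfl fun p _ => ?_
      rw [Finset.sum_comm]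
    rw [e1]
    have e2 : ∀ p ∈ OP, ∑ q ∈ OP, ∑ ξ, I p ξ * I q ξ ≤
        M * (k ^ 2 * N / n ^ 2) + 2 * (k * N / n) := by
      intro p hp
      have hc : 0 ≤ k * N / n := by positivity
      have hc2 : 0 ≤ k ^ 2 * N / n ^ 2 := by positivity
      calc ∑ q ∈ OP, ∑ ξ, I p ξ * I q ξ
          ≤ ∑ q ∈ OP, (k ^ 2 * N / n ^ 2 + (if q = p then k * N / n else 0) +
              (if q = p.swap then k * N / n else 0)) := by
            refine Finset.sum_le_sum fun q hq => ?_
            by_cases ha : q = p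
            · have := hB' p hp q
              rw [if_pos ha]
              have h0 : (0 : ℝ) ≤ if q = p.swap then k * N / n else 0 := by
                split_ifs
                · exact hc
                · exact le_rfl
              linarith
            · by_cases hb : q = p.swap
              · have := hB' p hp q
                rw [if_neg ha, if_pos hb]
                linarith
              · rw [if_neg ha, if_neg hb, hB p hp q hq ha hb]
                linarith
        _ ≤ M * (k ^ 2 * N / n ^ 2) + 2 * (k * N / n) := by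
            rw [Finset.sum_add_distrib, Finset.sum_add_distrib, Finset.sum_const, nsmul_eq_mul,
              Finset.sum_ite_eq', Finset.sum_ite_eq']
            have h0 : (if p ∈ OP then k * N / n else 0) ≤ k * N / n := by
              rw [if_pos hp]
            have h0' : (if p.swap ∈ OP then k * N / n else 0) ≤ k * N / n := by
              split_ifs
              · exact le_rfl
              · exact hc
            linarith
    calc ∑ p ∈ OP, ∑ q ∈ OP, ∑ ξ, I p ξ * I q ξ
        ≤ ∑ _p ∈ OP, (M * (k ^ 2 * N / n ^ 2) + 2 * (k * N / n)) := Finset.sum_le_sum e2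
      _ = _ := by rw [Finset.sum_const, nsmul_eq_mul]
  set mu : ℝ := M * k / n with hmu
  have hmu0 : 0 ≤ mu := by positivity
  have hcardN : ∑ _ξ : Fin m → G, (1 : ℝ) = N := by
    rw [Finset.sum_const, Finset.card_univ, Fintype.card_fun, hnd, Fintype.card_fin, nsmul_eq_mul,
      mul_one, hN]
    push_cast
    rfl
  have hvar : ∑ ξ, (X ξ - mu) ^ 2 ≤ 2 * mu * N := by
    have e : ∑ ξ, (X ξ - mu) ^ 2 = ∑ ξ, X ξ ^ 2 - 2 * mu * ∑ ξ, X ξ + mu ^ 2 * N := by
      rw [← hcardN, Finset.mul_sum, Finset.mul_sum, ← Finset.sum_sub_distrib,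
        ← Finset.sum_add_distrib]
      refine Finset.sum_congr rfl fun ξ _ => ?_
      ring
    rw [e, hS1]
    have e3 : M * (k * N / n) = mu * N := by rw [hmu]; ring
    have e4 : M * (M * (k ^ 2 * N / n ^ 2) + 2 * (k * N / n)) = mu ^ 2 * N + 2 * mu * N := by
      rw [hmu]
      field_simp
    rw [e4] at hS2
    rw [e3]
    nlinarith
  -- the event
  set F : Finset (Fin m → G) := (univ : Finset (Fin m → G)).filter (fun ξ =>
    k ≤ ((univ : Finset (Fin m)).filter (fun i => ∃ i', i' ≠ i ∧ ξ i - ξ i' ∈ P)).card) with hF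
  have hFX : ∀ ξ ∈ F, (k : ℝ) ≤ X ξ := by
    intro ξ hξ
    rw [hF, mem_filter] at hξ
    have h3 : (((univ : Finset (Fin m)).filter
        (fun i => ∃ i', i' ≠ i ∧ ξ i - ξ i' ∈ P)).card : ℝ) ≤ X ξ := by
      rw [← Finset.sum_boole]
      simp only [X, OP]
      rw [Finset.sum_filter, ← Finset.univ_product_univ, Finset.sum_product]
      refine Finset.sum_le_sum fun i _ => ?_
      split_ifs with hi
      · obtain ⟨i', hi', hP⟩ := hi
        have h4 : (1 : ℝ) = (if i ≠ i' then I (i, i') ξ else 0) := by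
          rw [if_pos (Ne.symm hi')]
          simp only [I]
          rw [if_pos hP]
        rw [h4]
        refine Finset.single_le_sum (f := fun j => if i ≠ j then I (i, j) ξ else 0)
          (fun j _ => ?_) (mem_univ i')
        split_ifs
        · exact hI0 _ _
        · exact le_rfl
      · refine Finset.sum_nonneg fun j _ => ?_
        split_ifs
        · exact hI0 _ _
        · exact le_rfl
    refine le_trans ?_ h3
    exact_mod_cast hξ.2
  have hmu1 : mu ≤ k / 64 := by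
    rw [hmu, div_le_iff₀ hnpos]
    have : M * k ≤ 16 * k ^ 2 * k := by gcongr
    nlinarith
  have hFb : (F.card : ℝ) * (k - mu) ^ 2 ≤ 2 * mu * N := by
    refine le_trans ?_ hvar
    calc (F.card : ℝ) * (k - mu) ^ 2 = ∑ _ξ ∈ F, (k - mu) ^ 2 := by
          rw [Finset.sum_const, nsmul_eq_mul]
      _ ≤ ∑ ξ ∈ F, (X ξ - mu) ^ 2 := by
          refine Finset.sum_le_sum fun ξ hξ => ?_
          have := hFX ξ hξ
          apply pow_le_pow_left₀ (by linarith)
          linarith
      _ ≤ ∑ ξ, (X ξ - mu) ^ 2 :=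
          Finset.sum_le_sum_of_subset_of_nonneg (subset_univ _) fun ξ _ _ => sq_nonneg _
  have h63 : (63 * k / 64 : ℝ) ^ 2 ≤ (k - mu) ^ 2 := by
    apply pow_le_pow_left₀ (by positivity)
    linarith
  have hmu2 : mu * 64 ≤ 1 / k * k ^ 2 := by
    have : (1 : ℝ) / k * k ^ 2 = k := by field_simp
    rw [this]
    linarith
  have hfin : (F.card : ℝ) * (8 * k) ≤ N := by
    have h5 : (F.card : ℝ) * (63 * k / 64) ^ 2 ≤ 2 * (k / 64) * N := by
      calc (F.card : ℝ) * (63 * k / 64) ^ 2 ≤ (F.card : ℝ) * (k - mu) ^ 2 := by gcongr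
        _ ≤ 2 * mu * N := hFb
        _ ≤ _ := by gcongr
    have h6 : (F.card : ℝ) * k * (63 / 64) ^ 2 * k ≤ N / 32 * k := by nlinarith
    have h7 : (F.card : ℝ) * k * (63 / 64) ^ 2 ≤ N / 32 := le_of_mul_le_mul_right h6 (by linarith)
    nlinarith
  have : ((F.card * (8 * k) : ℕ) : ℝ) ≤ ((n ^ m : ℕ) : ℝ) := by
    push_cast
    exact hfin
  exact_mod_cast this

end Pool.Agent.Helper64.MC
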