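import Pool.Agent.Helper33.RR.GT
import Pool.Agent.Helper88.RR.KI

/-!
# MC-KV, part 1: the function `GB` in terms of labels, gluing of label functions
-/

set_option autoImplicit false

open Finset Filter Topology

open scoped Classical

namespace Pool.Agent.Helper64.MC

open Pool.Agent.Helper88.PP (pr Rg om Sf SS uu vv ee LA VV QQ cost nc dd)
open Pool.Agent.Helper88.RR (gg ab TB WB nz wb DB Db VM GB)
open Pool.Agent.Helper33.RR (om_nonneg VM_nonneg VM_ge_one VV_nonneg ab_nonneg sum_ab Db_nonneg
  Db_le Db_zero card_labels prod_labels gg_nonneg gg_succ)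

/-- the function `GB` in terms of labels -/
theorem gb_labels (m q M z y : ℕ) (P : Finset ℕ) (h : P) (hm : 1 ≤ m) (hM1 : 1 ≤ M) (hz2 : 2 ≤ z)
    (hV : VV z m (q * m) ≠ 0) (hcardP : P.card ≤ y) :
    ∃ (T₁ : Finset (P → ℕ)) (cc : (P → ℕ) → ℝ),
      (∀ n, GB m q M z y P h n = ∑ r ∈ T₁, cc r * ∏ i, vv y z (r i) (n + (i : ℕ))) ∧
      (∑ r ∈ T₁, cc r ^ 2 *
        (gg y z (nz r) * ∏ i, (if r i = 0 then 1 else (Nat.totient (r i) : ℝ))) ≤ om y z *
        ∑ r ∈ (TB m q M z P).filter (fun r => M < cost z r + q * m), wb m q y z r) ∧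
      (∀ r ∈ T₁, ∀ i, i ≠ h → (r i = 0 ∨ r i ∈ LA z m (q * m))) ∧
      (∀ r ∈ T₁, r h ∈ SS z (z ^ M)) ∧
      (∀ r ∈ T₁, nz r ≤ M / m + 1) ∧
      (∀ r ∈ T₁, ∏ i, max 1 (r i) ≤ z ^ (2 * M)) ∧
      (∀ r ∈ T₁, |cc r| ≤ ∏ i, (if i = h then 1 / (VM M z * (Nat.totient (r i) : ℝ)) else
        if r i = 0 then 1 else ab m q z (r i))) := by
  have hVM := VM_ge_one hM1 hz2
  set Th : Finset (P → ℕ) := (TB m q M z P).filter (fun r => r h = 0) with hTh
  set S : Finset ℕ := SS z (z ^ M) with hS
  set co : ℕ → ℝ := fun r => if r = 0 then 1 else - ab m q z r with hco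
  set cc : (P → ℕ) → ℝ := fun r' => Db m q M z (cost z (Function.update r' h 0)) *
    (1 / (VM M z * (Nat.totient (r' h) : ℝ))) * ∏ i ∈ univ.erase h, co (r' i) with hcc
  set T : Finset (P → ℕ) := (Th ×ˢ S).image (fun p => Function.update p.1 h p.2) with hT
  have hinj : Set.InjOn (fun p : (P → ℕ) × ℕ => Function.update p.1 h p.2)
      ((Th ×ˢ S : Finset ((P → ℕ) × ℕ)) : Set ((P → ℕ) × ℕ)) := by
    rintro ⟨r, s⟩ hr ⟨r', s'⟩ hr' heq
    rw [mem_coe, mem_product] at hr hr'
    simp only [hTh, mem_filter] at hr hr'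
    simp only at heq
    have h1 : s = s' := by
      have := congrFun heq h
      simpa using this
    have h2 : r = r' := by
      funext i
      by_cases hi : i = h
      · rw [hi, hr.1.2, hr'.1.2]
      · have := congrFun heq i
        simpa [Function.update_of_ne hi] using this
    rw [h1, h2]
  have hupd0 : ∀ r ∈ Th, ∀ s, Function.update (Function.update r h s) h 0 = r := by
    intro r hr s
    rw [Function.update_idem]
    simp only [hTh, mem_filter] at hr
    rw [← hr.2, Function.update_eq_self]
  have hnz_le : ∀ r : P → ℕ, nz r ≤ y := by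
    intro r
    unfold nz
    refine (Finset.card_le_univ _).trans ?_
    rw [Fintype.card_coe]
    exact hcardP
  have hnz_succ : ∀ r ∈ Th, ∀ s ∈ S, nz (Function.update r h s) = nz r + 1 := by
    intro r hr s hs
    have hr0 : r h = 0 := by
      simp only [hTh, mem_filter] at hr
      exact hr.2
    have hs0 : s ≠ 0 := by
      simp only [hS, SS, mem_filter, mem_Ico] at hs
      omega
    unfold nz
    have h3 : (univ.filter (fun i => Function.update r h s i ≠ 0))
        = insert h (univ.filter (fun i => r i ≠ 0)) := by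
      ext i
      rw [mem_insert]
      by_cases hih : i = h
      · subst hih
        simp [hs0]
      · simp [hih]
    rw [h3, Finset.card_insert_of_notMem]
    simp [hr0]
  refine ⟨T, cc, ?_, ?_, ?_, ?_, ?_, ?_, ?_⟩
  · intro n
    rw [hT, Finset.sum_image hinj, Finset.sum_product]
    unfold GB
    refine Finset.sum_congr rfl fun r hr => Finset.sum_congr rfl fun s _ => ?_
    have hr0 : r h = 0 := by
      rw [hTh, mem_filter] at hr
      exact hr.2
    simp only [hcc]
    rw [hupd0 r hr s, Function.update_self]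
    rw [← Finset.mul_prod_erase univ (fun i : P => vv y z (Function.update r h s i) (n + (i : ℕ)))
      (mem_univ h), Function.update_self]
    rw [← Finset.mul_prod_erase univ (fun i : P => ((if r i = 0 then 1 else - ab m q z (r i)) *
      vv y z (r i) (n + (i : ℕ)))) (mem_univ h)]
    have e1 : ∏ i ∈ univ.erase h, co (Function.update r h s i)
        = ∏ i ∈ univ.erase h, co (r i) := by
      refine Finset.prod_congr rfl fun i hi => ?_
      rw [Function.update_of_ne (Finset.ne_of_mem_erase hi)]
    have e2 : ∏ i ∈ univ.erase h, vv y z (Function.update r h s i) (n + (i : ℕ))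
        = ∏ i ∈ univ.erase h, vv y z (r i) (n + (i : ℕ)) := by
      refine Finset.prod_congr rfl fun i hi => ?_
      rw [Function.update_of_ne (Finset.ne_of_mem_erase hi)]
    rw [e1, e2, hr0]
    have e3 : vv y z 0 (n + (h : ℕ)) = 1 := by simp [vv]
    rw [e3, Finset.prod_mul_distrib]
    simp only [if_true, one_mul, hco]
    ring
  · rw [hT, Finset.sum_image hinj, Finset.sum_product]
    have hterm : ∀ r ∈ Th, ∀ s ∈ S, cc (Function.update r h s) ^ 2 *
        (gg y z (nz (Function.update r h s)) * ∏ i, (if Function.update r h s i = 0 then 1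
          else (Nat.totient (Function.update r h s i) : ℝ))) =
        (Db m q M z (cost z r) ^ 2 * (gg y z (nz r + 1) * ∏ i : P,
          (if r i = 0 then 1 else ab m q z (r i) ^ 2 * (Nat.totient (r i) : ℝ)))) *
        ((1 / VM M z) ^ 2 * (1 / (Nat.totient s : ℝ))) := by
      intro r hr s hs
      have hr0 : r h = 0 := by
        simp only [hTh, mem_filter] at hr
        exact hr.2
      have hs0 : s ≠ 0 := by
        simp only [hS, SS, mem_filter, mem_Ico] at hs
        omega
      have hs1 : (Nat.totient s : ℝ) ≠ 0 := by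
        have : 0 < Nat.totient s := Nat.totient_pos.mpr (Nat.pos_of_ne_zero hs0)
        exact_mod_cast this.ne'
      rw [hnz_succ r hr s hs]
      simp only [hcc]
      rw [hupd0 r hr s, Function.update_self]
      rw [← Finset.mul_prod_erase univ (fun i : P => (if Function.update r h s i = 0 then (1 : ℝ)
          else (Nat.totient (Function.update r h s i) : ℝ)))
        (mem_univ h), Function.update_self, if_neg hs0]
      rw [← Finset.mul_prod_erase univ (fun i : P => (if r i = 0 then (1 : ℝ) else
        ab m q z (r i) ^ 2 * (Nat.totient (r i) : ℝ))) (mem_univ h)]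
      have e1 : ∏ i ∈ univ.erase h, co (Function.update r h s i)
          = ∏ i ∈ univ.erase h, co (r i) := by
        refine Finset.prod_congr rfl fun i hi => ?_
        rw [Function.update_of_ne (Finset.ne_of_mem_erase hi)]
      have e2 : ∏ i ∈ univ.erase h, (if Function.update r h s i = 0 then (1 : ℝ)
          else (Nat.totient (Function.update r h s i) : ℝ))
          = ∏ i ∈ univ.erase h, (if r i = 0 then (1 : ℝ)
          else (Nat.totient (r i) : ℝ)) := by
        refine Finset.prod_congr rfl fun i hi => ?_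
        rw [Function.update_of_ne (Finset.ne_of_mem_erase hi)]
      have e3 : (∏ i ∈ univ.erase h, co (r i)) ^ 2 * ∏ i ∈ univ.erase h,
          (if r i = 0 then (1 : ℝ) else (Nat.totient (r i) : ℝ))
          = ∏ i ∈ univ.erase h, (if r i = 0 then (1 : ℝ) else
            ab m q z (r i) ^ 2 * (Nat.totient (r i) : ℝ)) := by
        rw [← Finset.prod_pow, ← Finset.prod_mul_distrib]
        refine Finset.prod_congr rfl fun i _ => ?_
        simp only [hco]
        split_ifs <;> ring
      rw [e1, e2, ← e3, hr0]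
      simp only [if_true, one_mul]
      have hVM0 : VM M z ≠ 0 := by linarith
      field_simp
    rw [Finset.sum_congr rfl fun r hr => Finset.sum_congr rfl fun s hs => hterm r hr s hs]
    rw [Finset.sum_congr rfl fun r _ => (Finset.mul_sum _ _ _).symm, ← Finset.sum_mul,
      ← Finset.mul_sum]
    have e6 : (1 / VM M z) ^ 2 * ∑ s ∈ S, 1 / (Nat.totient s : ℝ) ≤ 1 := by
      have e7 : (1 / VM M z) ^ 2 * ∑ s ∈ S, 1 / (Nat.totient s : ℝ) = 1 / VM M z := by
        show (1 / VM M z) ^ 2 * VM M z = _
        have hVM0 : VM M z ≠ 0 := by linarith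
        field_simp
      rw [e7, div_le_one (by linarith)]
      exact hVM
    have hprod : ∀ r : P → ℕ, 0 ≤ ∏ i : P,
          (if r i = 0 then 1 else ab m q z (r i) ^ 2 * (Nat.totient (r i) : ℝ)) := by
      intro r
      refine Finset.prod_nonneg fun i _ => ?_
      split_ifs <;> positivity
    have hwb : ∀ r : P → ℕ, 0 ≤ wb m q y z r := by
      intro r
      unfold wb
      exact mul_nonneg (gg_nonneg (hnz_le r)) (hprod r)
    have hlt : ∀ r ∈ Th, nz r + 1 ≤ y := by
      intro r hr
      have hs1 : (1 : ℕ) ∈ S := by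
        simp only [hS, SS, mem_filter, mem_Ico]
        refine ⟨⟨le_rfl, Nat.one_lt_pow (by omega) (by omega)⟩, squarefree_one, ?_⟩
        intro p hp hp1
        exact absurd (Nat.dvd_one.mp hp1) hp.ne_one
      rw [← hnz_succ r hr 1 hs1]
      exact hnz_le _
    have e7 : ∑ r ∈ Th, Db m q M z (cost z r) ^ 2 * (gg y z (nz r + 1) * ∏ i : P,
          (if r i = 0 then 1 else ab m q z (r i) ^ 2 * (Nat.totient (r i) : ℝ))) ≤
        om y z * ∑ r ∈ (TB m q M z P).filter (fun r => M < cost z r + q * m),
          wb m q y z r := by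
      rw [Finset.mul_sum]
      conv_rhs => rw [Finset.sum_filter]
      have hstep : ∀ r ∈ Th, Db m q M z (cost z r) ^ 2 * (gg y z (nz r + 1) * ∏ i : P,
          (if r i = 0 then 1 else ab m q z (r i) ^ 2 * (Nat.totient (r i) : ℝ))) ≤
          (if M < cost z r + q * m then om y z * wb m q y z r else 0) := by
        intro r hr
        split_ifs with hcost
        · have h1 := Db_le m q M z (cost z r) hV
          have h2 := Db_nonneg m q M z (cost z r)
          have h3 : Db m q M z (cost z r) ^ 2 ≤ 1 := pow_le_one₀ h2 h1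
          have h4 : 0 ≤ gg y z (nz r + 1) * ∏ i : P,
            (if r i = 0 then 1 else ab m q z (r i) ^ 2 * (Nat.totient (r i) : ℝ)) :=
            mul_nonneg (gg_nonneg (hlt r hr)) (hprod r)
          calc _ ≤ 1 * _ := mul_le_mul_of_nonneg_right h3 h4
            _ = _ := one_mul _
            _ ≤ (om y z * gg y z (nz r)) * ∏ i : P,
                (if r i = 0 then 1 else ab m q z (r i) ^ 2 * (Nat.totient (r i) : ℝ)) :=
              mul_le_mul_of_nonneg_right (gg_succ (hlt r hr)) (hprod r)
            _ = _ := by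
              unfold wb
              rw [mul_assoc]
        · rw [Db_zero m q M z (cost z r) hz2 (by omega)]
          simp
      refine (Finset.sum_le_sum hstep).trans ?_
      refine Finset.sum_le_sum_of_subset_of_nonneg (Finset.filter_subset _ _) fun r _ _ => ?_
      split_ifs
      · exact mul_nonneg (om_nonneg y z) (hwb r)
      · exact le_rfl
    have h0 : 0 ≤ ∑ r ∈ Th, Db m q M z (cost z r) ^ 2 * (gg y z (nz r + 1) * ∏ i : P,
          (if r i = 0 then 1 else ab m q z (r i) ^ 2 * (Nat.totient (r i) : ℝ))) :=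
      Finset.sum_nonneg fun r hr =>
        mul_nonneg (sq_nonneg _) (mul_nonneg (gg_nonneg (hlt r hr)) (hprod r))
    calc _ ≤ (∑ r ∈ Th, Db m q M z (cost z r) ^ 2 * (gg y z (nz r + 1) * ∏ i : P,
          (if r i = 0 then 1 else ab m q z (r i) ^ 2 * (Nat.totient (r i) : ℝ)))) * 1 :=
          mul_le_mul_of_nonneg_left e6 h0
      _ = _ := mul_one _
      _ ≤ _ := e7
  · intro r' hr' i hi'
    rw [hT, mem_image] at hr'
    obtain ⟨⟨r, s⟩, hrs, rfl⟩ := hr'
    rw [mem_product] at hrs
    simp only
    rw [Function.update_of_ne hi']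
    have h1 := hrs.1
    simp only [hTh, TB, mem_filter, Fintype.mem_piFinset, mem_insert] at h1
    exact h1.1.1 i
  · intro r' hr'
    rw [hT, mem_image] at hr'
    obtain ⟨⟨r, s⟩, hrs, rfl⟩ := hr'
    rw [mem_product] at hrs
    simp only
    rw [Function.update_self]
    exact hrs.2
  · intro r' hr'
    rw [hT, mem_image] at hr'
    obtain ⟨⟨r, s⟩, hrs, rfl⟩ := hr'
    rw [mem_product] at hrs
    have h1 := hrs.1
    simp only
    rw [hnz_succ r hrs.1 s hrs.2]
    simp only [hTh, mem_filter] at h1
    have h2 := card_labels hm hz2 h1.1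
    omega
  · intro r' hr'
    rw [hT, mem_image] at hr'
    obtain ⟨⟨r, s⟩, hrs, rfl⟩ := hr'
    rw [mem_product] at hrs
    have h1 := hrs.1
    simp only [hTh, mem_filter] at h1
    have h2 := prod_labels hz2 h1.1
    have hs := hrs.2
    simp only [hS, SS, mem_filter, mem_Ico] at hs
    simp only
    rw [← Finset.mul_prod_erase univ (fun i : P => max 1 (Function.update r h s i)) (mem_univ h),
      Function.update_self]
    rw [← Finset.mul_prod_erase univ (fun i : P => max 1 (r i)) (mem_univ h)] at h2
    have e1 : ∏ i ∈ univ.erase h, max 1 (Function.update r h s i)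
        = ∏ i ∈ univ.erase h, max 1 (r i) := by
      refine Finset.prod_congr rfl fun i hi => ?_
      rw [Function.update_of_ne (Finset.ne_of_mem_erase hi)]
    rw [e1, h1.2] at *
    simp only [Nat.max_eq_left (Nat.zero_le 1), one_mul] at h2
    rw [two_mul, pow_add]
    exact Nat.mul_le_mul (by omega) h2
  · intro r' hr'
    rw [hT, mem_image] at hr'
    obtain ⟨⟨r, s⟩, hrs, rfl⟩ := hr'
    rw [mem_product] at hrs
    have h1 := hrs.1
    simp only [hcc]
    rw [hupd0 r hrs.1 s]
    rw [← Finset.mul_prod_erase univ (fun i : P => if i = h then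
      1 / (VM M z * (Nat.totient (Function.update r h s i) : ℝ)) else
      if Function.update r h s i = 0 then 1 else ab m q z (Function.update r h s i)) (mem_univ h)]
    rw [Function.update_self, if_pos rfl, abs_mul, abs_mul,
      abs_of_nonneg (Db_nonneg m q M z _), Finset.abs_prod]
    have h2 : 0 ≤ 1 / (VM M z * (Nat.totient s : ℝ)) := by
      have := VM_nonneg M z
      positivity
    rw [abs_of_nonneg h2]
    have e1 : ∏ i ∈ univ.erase h, |co (Function.update r h s i)| =
        ∏ i ∈ univ.erase h, (if i = h then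
          1 / (VM M z * (Nat.totient (Function.update r h s i) : ℝ)) else
          if Function.update r h s i = 0 then 1 else ab m q z (Function.update r h s i)) := by
      refine Finset.prod_congr rfl fun i hi => ?_
      rw [if_neg (Finset.ne_of_mem_erase hi)]
      simp only [hco]
      split_ifs
      · simp
      · rw [abs_neg, abs_of_nonneg (ab_nonneg _ _ _ _)]
    rw [e1]
    refine mul_le_mul_of_nonneg_right ?_ ?_
    · calc _ ≤ 1 * (1 / (VM M z * (Nat.totient s : ℝ))) :=
            mul_le_mul_of_nonneg_right (Db_le m q M z _ hV) h2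
        _ = _ := one_mul _
    · rw [← e1]
      exact Finset.prod_nonneg fun _ _ => abs_nonneg _

/-! ### Gluing of label functions -/

section glue

variable {P H : Finset ℕ}

/-- the label function on `P ∪ H` with parts `r` and `s` -/
def glue (r : P → ℕ) (s : H → ℕ) : (P ∪ H : Finset ℕ) → ℕ := fun i =>
  if hi : (i : ℕ) ∈ P then r ⟨i, hi⟩ else if hj : (i : ℕ) ∈ H then s ⟨i, hj⟩ else 0

/-- the part on `P` -/
def resP (l : (P ∪ H : Finset ℕ) → ℕ) : P → ℕ := fun i => l ⟨i, mem_union_left _ i.2⟩

/-- the part on `H` -/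
def resH (l : (P ∪ H : Finset ℕ) → ℕ) : H → ℕ := fun i => l ⟨i, mem_union_right _ i.2⟩

theorem resP_glue (r : P → ℕ) (s : H → ℕ) : resP (glue r s) = r := by
  funext i
  unfold resP glue
  rw [dif_pos i.2]

theorem resH_glue (hd : Disjoint P H) (r : P → ℕ) (s : H → ℕ) : resH (glue r s) = s := by
  funext i
  unfold resH glue
  rw [dif_neg (fun h => (Finset.disjoint_left.1 hd) h i.2), dif_pos i.2]

theorem glue_inj (hd : Disjoint P H) : Function.Injective
    (fun p : (P → ℕ) × (H → ℕ) => glue p.1 p.2) := by
  rintro ⟨r, s⟩ ⟨r', s'⟩ h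
  have h1 := congrArg (resP (P := P) (H := H)) h
  have h2 := congrArg (resH (P := P) (H := H)) h
  simp only [resP_glue, resH_glue hd] at h1 h2
  rw [h1, h2]

theorem prod_union_coe {α : Type} [CommMonoid α] (hd : Disjoint P H)
    (f : (P ∪ H : Finset ℕ) → α) :
    ∏ i, f i = (∏ i : P, f ⟨i, mem_union_left _ i.2⟩) * ∏ i : H, f ⟨i, mem_union_right _ i.2⟩ := by
  set g : ℕ → α := fun i => if hi : i ∈ P ∪ H then f ⟨i, hi⟩ else 1 with hg
  have e1 : ∏ i, f i = ∏ i : (P ∪ H : Finset ℕ), g i := by
    refine Finset.prod_congr rfl fun i _ => ?_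
    rw [hg]
    simp only [dif_pos i.2]
  have e2 : ∏ i : P, f ⟨i, mem_union_left _ i.2⟩ = ∏ i : P, g i := by
    refine Finset.prod_congr rfl fun i _ => ?_
    rw [hg]
    simp only [dif_pos (mem_union_left H i.2)]
  have e3 : ∏ i : H, f ⟨i, mem_union_right _ i.2⟩ = ∏ i : H, g i := by
    refine Finset.prod_congr rfl fun i _ => ?_
    rw [hg]
    simp only [dif_pos (mem_union_right P i.2)]
  rw [e1, e2, e3, Finset.prod_coe_sort (P ∪ H) g, Finset.prod_coe_sort P g,
    Finset.prod_coe_sort H g, Finset.prod_union hd]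

theorem prod_glue {α : Type} [CommMonoid α] (hd : Disjoint P H) (f : ℕ → ℕ → α) (r : P → ℕ)
    (s : H → ℕ) : ∏ i : (P ∪ H : Finset ℕ), f (i : ℕ) (glue r s i) =
      (∏ i : P, f (i : ℕ) (r i)) * ∏ i : H, f (i : ℕ) (s i) := by
  rw [prod_union_coe hd (fun i => f (i : ℕ) (glue r s i))]
  congr 1
  · refine Finset.prod_congr rfl fun i _ => ?_
    have := congrFun (resP_glue r s) i
    unfold resP at this
    rw [this]
  · refine Finset.prod_congr rfl fun i _ => ?_
    have := congrFun (resH_glue hd r s) i
    unfold resH at this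
    rw [this]

theorem nz_eq_prod {ι : Type} [Fintype ι] (r : ι → ℕ) :
    Multiplicative.ofAdd (nz r) = ∏ i, (if r i = 0 then 1 else Multiplicative.ofAdd 1) := by
  have h : nz r = ∑ i, (if r i = 0 then 0 else 1) := by
    unfold nz
    rw [Finset.card_filter]
    refine Finset.sum_congr rfl fun i _ => ?_
    by_cases h : r i = 0
    · simp [h]
    · simp [h]
  rw [h, ofAdd_sum]
  refine Finset.prod_congr rfl fun i _ => ?_
  split_ifs
  · rfl
  · rfl

theorem nz_glue (hd : Disjoint P H) (r : P → ℕ) (s : H → ℕ) :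
    nz (glue r s) = nz r + nz s := by
  apply Multiplicative.ofAdd.injective
  rw [ofAdd_add, nz_eq_prod, nz_eq_prod, nz_eq_prod]
  exact prod_glue hd (fun _ l => if l = 0 then 1 else Multiplicative.ofAdd 1) r s

end glue

end Pool.Agent.Helper64.MC
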