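import Pool.Agent.Helper64.MC.KVA
import Pool.Agent.Helper23.MC.Goals1

/-!
# MC-KV, part 2: the second moment at one point of `P`
-/

set_option autoImplicit false

open Finset Filter Topology

open scoped Classical

namespace Pool.Agent.Helper64.MC

open Pool.Agent.Helper88.PP (pr Rg om Sf SS uu vv ee LA VV QQ cost nc dd)
open Pool.Agent.Helper88.RR (gg ab TB WB nz wb DB Db VM GB)
open Pool.Agent.Helper88.GM (NI XI gB In)
open Pool.Agent.Helper33.RR (om_nonneg VM_nonneg VM_ge_one VV_nonneg ab_nonneg sum_ab Db_nonneg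
  Db_le Db_zero card_labels prod_labels gg_nonneg gg_succ)
open Pool.Agent.Helper23.MC

theorem ss_pos {z X s : ℕ} (h : s ∈ SS z X) : 1 ≤ s := by
  simp only [SS, mem_filter, mem_Ico] at h
  exact h.1.1

theorem XI_nonneg (u v Q : ℕ) : 0 ≤ XI u v Q := by
  unfold XI
  positivity

theorem NH_nonneg (H : Finset ℕ) (T : Finset (H → ℕ)) (κ : (H → ℕ) → ℝ) : 0 ≤ NH H T κ := by
  unfold NH
  exact Finset.sum_nonneg fun s _ => mul_nonneg (sq_nonneg _)
    (Finset.prod_nonneg fun _ _ => Nat.cast_nonneg _)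

theorem nz_full {H : Finset ℕ} (s : H → ℕ) (h : ∀ i, s i ≠ 0) : nz s = H.card := by
  unfold nz
  rw [Finset.filter_true_of_mem fun i _ => h i, Finset.card_univ, Fintype.card_coe]

theorem nz_le_card {P : Finset ℕ} (r : P → ℕ) : nz r ≤ P.card := by
  unfold nz
  refine (Finset.card_le_univ _).trans ?_
  rw [Fintype.card_coe]

theorem one_point (K0 E z y u v Q b m q K : ℕ) (C C' c0 : ℝ) (hC : 1 ≤ C) (hC' : 1 ≤ C')
    (hTG : ∀ m q K : ℕ, 1 ≤ m → q * m ≤ E / 16 → 1 ≤ VV z m (q * m) →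
      K ^ 3 ≤ E → ∀ P : Finset ℕ, P ⊆ Icc 1 y → (P.card : ℝ) * om y z ≤ (E : ℝ) ^ 2 →
      ∀ (T : Finset (P → ℕ)) (a : (P → ℕ) → ℝ) (F G : Finset P), Disjoint F G →
      (∀ r ∈ T, ∀ i, i ∉ F → i ∉ G → (r i = 0 ∨ r i ∈ LA z m (q * m))) →
      (∀ r ∈ T, ∀ i ∈ F, r i ∈ SS z (z ^ (E / 32))) →
      (∀ r ∈ T, ∀ i ∈ G, r i = 1) →
      (∀ r ∈ T, nz r ≤ K) →
      (∀ r ∈ T, ∏ i, max 1 (r i) ≤ z ^ (2 * (E / 16))) →
      (∀ r ∈ T, |a r| ≤ ∏ i, (if i ∈ F then 1 / (VM (E / 32) z * (Nat.totient (r i) : ℝ)) else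
        if i ∈ G then 1 else if r i = 0 then 1 else ab m q z (r i))) →
      |∑ n ∈ NI u v Q b, (∑ r ∈ T, a r * ∏ i, vv y z (r i) (n + (i : ℕ))) ^ 2
          - XI u v Q * ∑ r ∈ T, a r ^ 2 *
            (gg y z (nz r) * ∏ i, (if r i = 0 then 1 else (Nat.totient (r i) : ℝ)))|
        ≤ Real.exp (-(c0 * E)) * XI u v Q)
    (hz2 : 2 ≤ z) (hm : 1 ≤ m) (hM1 : 1 ≤ E / 32) (hqm : q * m ≤ E / 32)
    (hVV : 1 ≤ VV z m (q * m)) (hK1 : E / 32 / m + 1 + K0 ≤ K) (hK3 : K ^ 3 ≤ E)
    (hgg : ∀ k h : ℕ, k + h ≤ y → 0 ≤ gg y z (k + h) ∧ gg y z (k + h) ≤ gg y z k * om y z ^ h)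
    (hVM : VM (E / 32) z ≤ C' * (E / 32 : ℕ))
    (P H : Finset ℕ) (hP : P ⊆ Icc 1 y) (hH : H ⊆ Icc 1 y) (hd : Disjoint P H)
    (hHc : H.card ≤ K0) (hPc : ((P ∪ H).card : ℝ) * om y z ≤ (E : ℝ) ^ 2)
    (T : Finset (H → ℕ)) (κ : (H → ℕ) → ℝ) (hAd : Ad C E z H T κ) (h : P) :
    ∑ n ∈ NI u v Q b, (GB m q (E / 32) z y P h n * VH y z H T κ n) ^ 2 ≤
      XI u v Q * (om y z ^ H.card * NH H T κ * (om y z *
        ∑ r ∈ (TB m q (E / 32) z P).filter (fun r => E / 32 < cost z r + q * m), wb m q y z r)) +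
      (C * C' ^ K0) ^ 2 * Real.exp (-(c0 * E)) * XI u v Q := by
  have hV : VV z m (q * m) ≠ 0 := by linarith
  have hVM1 := VM_ge_one hM1 hz2
  set M : ℕ := E / 32 with hM
  have hE0 : 0 < E := by omega
  have hEr : (0 : ℝ) < E := by exact_mod_cast hE0
  have hPHs : P ∪ H ⊆ Icc 1 y := Finset.union_subset hP hH
  have hPHc : P.card + H.card ≤ y := by
    have h1 := Finset.card_le_card hPHs
    rw [Nat.card_Icc, Finset.card_union_of_disjoint hd] at h1
    omega
  obtain ⟨T₁, cc, g1, g2, g3, g4, g5, g6, g7⟩ := gb_labels m q M z y P h hm hM1 hz2 hV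
    (by omega)
  obtain ⟨a1, a2, a3⟩ := hAd
  have hs0 : ∀ s ∈ T, ∀ i, s i ≠ 0 := fun s hs i => by
    have := ss_pos (a1 s hs i)
    omega
  set Cst : ℝ := C * C' ^ K0 with hCst
  have hC'pow : 1 ≤ C' ^ K0 := one_le_pow₀ hC'
  have hCst0 : 0 < Cst := by positivity
  -- the label functions on `P ∪ H`
  set T₂ : Finset ((P ∪ H : Finset ℕ) → ℕ) := (T₁ ×ˢ T).image (fun p => glue p.1 p.2) with hT₂
  set a : ((P ∪ H : Finset ℕ) → ℕ) → ℝ := fun l => cc (resP l) * (κ (resH l) / Cst) with ha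
  set F : Finset (P ∪ H : Finset ℕ) := univ.filter (fun i => (i : ℕ) ∈ H ∨ (i : ℕ) = h) with hF
  have hmem : ∀ l ∈ T₂, ∃ r ∈ T₁, ∃ s ∈ T, l = glue r s := by
    intro l hl
    rw [hT₂, mem_image] at hl
    obtain ⟨⟨r, s⟩, hrs, rfl⟩ := hl
    rw [mem_product] at hrs
    exact ⟨r, hrs.1, s, hrs.2, rfl⟩
  have hglueP : ∀ (r : P → ℕ) (s : H → ℕ) (i : (P ∪ H : Finset ℕ)) (hi : (i : ℕ) ∈ P),
      glue r s i = r ⟨i, hi⟩ := fun r s i hi => by
    unfold glue
    rw [dif_pos hi]
  have hglueH : ∀ (r : P → ℕ) (s : H → ℕ) (i : (P ∪ H : Finset ℕ)) (hi : (i : ℕ) ∈ H),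
      glue r s i = s ⟨i, hi⟩ := fun r s i hi => by
    unfold glue
    rw [dif_neg (fun h => (Finset.disjoint_left.1 hd) h hi), dif_pos hi]
  have key := hTG m q K hm (hqm.trans (by omega)) hVV hK3 (P ∪ H) hPHs hPc T₂ a F ∅
    (Finset.disjoint_empty_right _) ?_ ?_ ?_ ?_ ?_ ?_
  · -- conclusion
    have hsum : ∀ n, ∑ l ∈ T₂, a l * ∏ i, vv y z (l i) (n + (i : ℕ)) =
        GB m q M z y P h n * (VH y z H T κ n / Cst) := by
      intro n
      rw [hT₂, Finset.sum_image (fun p _ p' _ hpp => glue_inj hd hpp), Finset.sum_product, g1]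
      unfold VH
      rw [Finset.sum_div, Finset.sum_mul_sum]
      refine Finset.sum_congr rfl fun r _ => Finset.sum_congr rfl fun s _ => ?_
      simp only [ha]
      rw [resP_glue, resH_glue hd,
        prod_glue hd (fun i l => vv y z l (n + i)) r s]
      ring
    have hsq : ∀ n, (GB m q M z y P h n * VH y z H T κ n) ^ 2 =
        Cst ^ 2 * (∑ l ∈ T₂, a l * ∏ i, vv y z (l i) (n + (i : ℕ))) ^ 2 := by
      intro n
      rw [hsum n]
      field_simp
    have hmain : Cst ^ 2 * ∑ l ∈ T₂, a l ^ 2 *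
        (gg y z (nz l) * ∏ i, (if l i = 0 then 1 else (Nat.totient (l i) : ℝ))) ≤
        om y z ^ H.card * NH H T κ * (om y z *
        ∑ r ∈ (TB m q M z P).filter (fun r => M < cost z r + q * m), wb m q y z r) := by
      rw [hT₂, Finset.sum_image (fun p _ p' _ hpp => glue_inj hd hpp), Finset.sum_product]
      have hprodP : ∀ r : P → ℕ, 0 ≤ ∏ i : P, (if r i = 0 then (1 : ℝ) else
          (Nat.totient (r i) : ℝ)) := fun r => Finset.prod_nonneg fun i _ => by
        split_ifs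
        · exact zero_le_one
        · exact Nat.cast_nonneg _
      have hprodH : ∀ s : H → ℕ, 0 ≤ ∏ i : H, (Nat.totient (s i) : ℝ) :=
        fun s => Finset.prod_nonneg fun i _ => Nat.cast_nonneg _
      have hterm : ∀ r ∈ T₁, ∀ s ∈ T, Cst ^ 2 * (a (glue r s) ^ 2 *
          (gg y z (nz (glue r s)) *
            ∏ i, (if glue r s i = 0 then 1 else (Nat.totient (glue r s i) : ℝ)))) ≤
          om y z ^ H.card * ((cc r ^ 2 * (gg y z (nz r) *
            ∏ i, (if r i = 0 then 1 else (Nat.totient (r i) : ℝ)))) *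
            (κ s ^ 2 * ∏ i : H, (Nat.totient (s i) : ℝ))) := by
        intro r hr s hs
        simp only [ha]
        rw [resP_glue, resH_glue hd, nz_glue hd, nz_full s (hs0 s hs),
          prod_glue hd (fun _ l => (if l = 0 then (1 : ℝ) else (Nat.totient l : ℝ))) r s]
        have e1 : ∏ i : H, (if s i = 0 then (1 : ℝ) else (Nat.totient (s i) : ℝ)) =
            ∏ i : H, (Nat.totient (s i) : ℝ) :=
          Finset.prod_congr rfl fun i _ => if_neg (hs0 s hs i)
        rw [e1]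
        obtain ⟨-, h2⟩ := hgg (nz r) H.card (by
          have := nz_le_card r
          omega)
        have h3 : 0 ≤ cc r ^ 2 * κ s ^ 2 * ((∏ i : P, (if r i = 0 then (1 : ℝ) else
            (Nat.totient (r i) : ℝ))) * ∏ i : H, (Nat.totient (s i) : ℝ)) :=
          mul_nonneg (mul_nonneg (sq_nonneg _) (sq_nonneg _)) (mul_nonneg (hprodP r) (hprodH s))
        have h4 := mul_le_mul_of_nonneg_left h2 h3
        have e2 : Cst ^ 2 * ((cc r * (κ s / Cst)) ^ 2 * (gg y z (nz r + H.card) *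
            ((∏ i : P, (if r i = 0 then (1 : ℝ) else (Nat.totient (r i) : ℝ))) *
              ∏ i : H, (Nat.totient (s i) : ℝ)))) =
            cc r ^ 2 * κ s ^ 2 * ((∏ i : P, (if r i = 0 then (1 : ℝ) else
            (Nat.totient (r i) : ℝ))) * ∏ i : H, (Nat.totient (s i) : ℝ)) *
              gg y z (nz r + H.card) := by
          field_simp
        rw [e2]
        refine h4.trans (le_of_eq ?_)
        ring
      rw [Finset.mul_sum]
      simp only [Finset.mul_sum]
      refine (Finset.sum_le_sum fun r hr => Finset.sum_le_sum fun s hs => hterm r hr s hs).trans ?_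
      have e3 : ∑ r ∈ T₁, ∑ s ∈ T, om y z ^ H.card * ((cc r ^ 2 * (gg y z (nz r) *
            ∏ i, (if r i = 0 then 1 else (Nat.totient (r i) : ℝ)))) *
            (κ s ^ 2 * ∏ i : H, (Nat.totient (s i) : ℝ))) =
          om y z ^ H.card * NH H T κ * ∑ r ∈ T₁, cc r ^ 2 *
            (gg y z (nz r) * ∏ i, (if r i = 0 then 1 else (Nat.totient (r i) : ℝ))) := by
        unfold NH
        rw [mul_assoc, mul_comm (∑ s ∈ T, κ s ^ 2 * ∏ i : H, (Nat.totient (s i) : ℝ)),
          Finset.sum_mul_sum, Finset.mul_sum]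
        refine Finset.sum_congr rfl fun r _ => ?_
        rw [Finset.mul_sum]
      rw [e3]
      have h5 := mul_le_mul_of_nonneg_left g2 (mul_nonneg (pow_nonneg (om_nonneg y z) H.card)
        (NH_nonneg H T κ))
      rw [Finset.mul_sum] at h5
      simpa only [Finset.mul_sum] using h5
    have hXX := XI_nonneg u v Q
    have h1 := (abs_le.mp key).2
    have h2 : ∑ n ∈ NI u v Q b, (∑ l ∈ T₂, a l * ∏ i, vv y z (l i) (n + (i : ℕ))) ^ 2 ≤
        XI u v Q * ∑ l ∈ T₂, a l ^ 2 *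
          (gg y z (nz l) * ∏ i, (if l i = 0 then 1 else (Nat.totient (l i) : ℝ))) +
        Real.exp (-(c0 * E)) * XI u v Q := by linarith
    rw [Finset.sum_congr rfl fun n _ => hsq n, ← Finset.mul_sum]
    refine (mul_le_mul_of_nonneg_left h2 (sq_nonneg Cst)).trans ?_
    have h3 := mul_le_mul_of_nonneg_left hmain hXX
    rw [mul_add]
    refine add_le_add (le_trans (le_of_eq ?_) h3) (le_of_eq ?_)
    · ring
    · ring
  · intro l hl i hi _
    obtain ⟨r, hr, s, hs, rfl⟩ := hmem l hl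
    rw [hF, mem_filter, not_and] at hi
    have hi' := hi (mem_univ i)
    push Not at hi'
    have hiP : (i : ℕ) ∈ P := (mem_union.1 i.2).resolve_right hi'.1
    rw [hglueP r s i hiP]
    exact g3 r hr ⟨i, hiP⟩ (fun he => hi'.2 (by rw [← he]))
  · intro l hl i hi
    obtain ⟨r, hr, s, hs, rfl⟩ := hmem l hl
    rw [hF, mem_filter] at hi
    rcases hi.2 with hi' | hi'
    · rw [hglueH r s i hi']
      exact a1 s hs _
    · have hiP : (i : ℕ) ∈ P := by
        rw [hi']
        exact h.2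
      rw [hglueP r s i hiP]
      have : (⟨i, hiP⟩ : P) = h := Subtype.ext hi'
      rw [this]
      exact g4 r hr
  · intro l _ i hi
    exact absurd hi (Finset.notMem_empty i)
  · intro l hl
    obtain ⟨r, hr, s, hs, rfl⟩ := hmem l hl
    rw [nz_glue hd]
    have h1 := g5 r hr
    have h2 := nz_le_card s
    omega
  · intro l hl
    obtain ⟨r, hr, s, hs, rfl⟩ := hmem l hl
    rw [prod_glue hd (fun _ l => max 1 l) r s]
    have h1 := g6 r hr
    have h2 : ∏ i : H, max 1 (s i) ≤ z ^ M := by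
      refine le_trans (le_of_eq (Finset.prod_congr rfl fun i _ => ?_)) (a2 s hs)
      exact max_eq_right (Nat.one_le_iff_ne_zero.2 (hs0 s hs i))
    calc (∏ i : P, max 1 (r i)) * ∏ i : H, max 1 (s i) ≤ z ^ (2 * M) * z ^ M :=
          Nat.mul_le_mul h1 h2
      _ = z ^ (3 * M) := by rw [← pow_add]; congr 1; ring
      _ ≤ z ^ (2 * (E / 16)) := Nat.pow_le_pow_right (by omega) (by omega)
  · intro l hl
    obtain ⟨r, hr, s, hs, rfl⟩ := hmem l hl
    simp only [ha]
    rw [resP_glue, resH_glue hd, abs_mul]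
    rw [prod_union_coe hd (fun i => (if i ∈ F then 1 / (VM M z *
      (Nat.totient (glue r s i) : ℝ)) else if i ∈ (∅ : Finset (P ∪ H : Finset ℕ)) then 1 else
        if glue r s i = 0 then 1 else ab m q z (glue r s i)))]
    have e1 : ∏ i : P, (if (⟨i, mem_union_left H i.2⟩ : (P ∪ H : Finset ℕ)) ∈ F then
        1 / (VM M z * (Nat.totient (glue r s ⟨i, mem_union_left H i.2⟩) : ℝ)) else
        if (⟨i, mem_union_left H i.2⟩ : (P ∪ H : Finset ℕ)) ∈
          (∅ : Finset (P ∪ H : Finset ℕ)) then 1 else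
        if glue r s ⟨i, mem_union_left H i.2⟩ = 0 then 1 else
          ab m q z (glue r s ⟨i, mem_union_left H i.2⟩)) =
        ∏ i : P, (if i = h then 1 / (VM M z * (Nat.totient (r i) : ℝ)) else
          if r i = 0 then 1 else ab m q z (r i)) := by
      refine Finset.prod_congr rfl fun i _ => ?_
      rw [hglueP r s ⟨i, mem_union_left H i.2⟩ i.2, if_neg (Finset.notMem_empty _)]
      have hiff : (⟨i, mem_union_left H i.2⟩ : (P ∪ H : Finset ℕ)) ∈ F ↔ i = h := by
        rw [hF, mem_filter]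
        constructor
        · rintro ⟨-, h1 | h1⟩
          · exact absurd h1 (fun h => (Finset.disjoint_left.1 hd) i.2 h)
          · exact Subtype.ext h1
        · rintro rfl
          exact ⟨mem_univ _, Or.inr rfl⟩
      simp only [hiff]
    have e2 : ∏ i : H, (if (⟨i, mem_union_right P i.2⟩ : (P ∪ H : Finset ℕ)) ∈ F then
        1 / (VM M z * (Nat.totient (glue r s ⟨i, mem_union_right P i.2⟩) : ℝ)) else
        if (⟨i, mem_union_right P i.2⟩ : (P ∪ H : Finset ℕ)) ∈
          (∅ : Finset (P ∪ H : Finset ℕ)) then 1 else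
        if glue r s ⟨i, mem_union_right P i.2⟩ = 0 then 1 else
          ab m q z (glue r s ⟨i, mem_union_right P i.2⟩)) =
        ∏ i : H, (1 / (VM M z * (Nat.totient (s i) : ℝ))) := by
      refine Finset.prod_congr rfl fun i _ => ?_
      rw [hglueH r s ⟨i, mem_union_right P i.2⟩ i.2, if_pos]
      rw [hF, mem_filter]
      exact ⟨mem_univ _, Or.inl i.2⟩
    rw [e1, e2]
    refine mul_le_mul (g7 r hr) ?_ (abs_nonneg _) ?_
    · rw [abs_div, abs_of_pos hCst0, div_le_iff₀ hCst0]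
      refine (a3 s hs).trans ?_
      have h1 : ∏ i : H, 1 / ((E : ℝ) * (Nat.totient (s i) : ℝ)) ≤
          ∏ i : H, (C' * (1 / (VM M z * (Nat.totient (s i) : ℝ)))) := by
        refine Finset.prod_le_prod (fun i _ => by positivity) fun i _ => ?_
        have ht : (0 : ℝ) < (Nat.totient (s i) : ℝ) := by
          exact_mod_cast Nat.totient_pos.2 (Nat.pos_of_ne_zero (hs0 s hs i))
        have hVE : VM M z ≤ C' * E := by
          refine hVM.trans (mul_le_mul_of_nonneg_left ?_ (by linarith))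
          exact_mod_cast Nat.div_le_self E 32
        rw [mul_one_div, div_le_div_iff₀ (by positivity) (by positivity)]
        nlinarith [mul_le_mul_of_nonneg_right hVE ht.le]
      rw [Finset.prod_mul_distrib, Finset.prod_const, Finset.card_univ, Fintype.card_coe] at h1
      have hp0 : 0 ≤ ∏ i : H, 1 / (VM M z * (Nat.totient (s i) : ℝ)) :=
        Finset.prod_nonneg fun i _ => by positivity
      have h2 : C' ^ H.card ≤ C' ^ K0 := pow_le_pow_right₀ hC' hHc
      calc C * ∏ i : H, 1 / ((E : ℝ) * (Nat.totient (s i) : ℝ))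
          ≤ C * (C' ^ H.card * ∏ i : H, 1 / (VM M z * (Nat.totient (s i) : ℝ))) :=
            mul_le_mul_of_nonneg_left h1 (by linarith)
        _ ≤ C * (C' ^ K0 * ∏ i : H, 1 / (VM M z * (Nat.totient (s i) : ℝ))) := by
            refine mul_le_mul_of_nonneg_left ?_ (by linarith)
            exact mul_le_mul_of_nonneg_right h2 hp0
        _ = _ := by
            rw [hCst]
            ring
    · refine Finset.prod_nonneg fun i _ => ?_
      split_ifs
      · positivity
      · exact zero_le_one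
      · exact ab_nonneg _ _ _ _

end Pool.Agent.Helper64.MC
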